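import Mathlib

/-!
# Powers in cyclotomic extensions
-/

set_option autoImplicit false

open NumberField

namespace Pool.Agent.AbSplit

variable {L L' : Type*} [Field L] [Field L'] [Algebra L L']

/-- Let `x ^ q = b` lie in `L`, where `x` is in the extension `L'` of `L` by the `q`-th roots of
unity, and let `τ` be an automorphism of `L'` over `L` with `τ ζ = ζ ^ (r + 1)`. Then `b ^ r` is a
`q`-th power in `L`. -/
theorem sah {q : ℕ} [NeZero q] [FiniteDimensional L L'] [hcyc : IsCyclotomicExtension {q} L L']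
    {ζ : L'}
    (hζ : IsPrimitiveRoot ζ q) (x : L') (hx0 : x ≠ 0) (b : L) (hx : x ^ q = algebraMap L L' b)
    (τ : L' ≃ₐ[L] L') (r : ℕ) (hτ : τ ζ = ζ ^ (r + 1)) :
    ∃ y : L, y ^ q = b ^ r := by
  have hGal : IsGalois L L' := IsCyclotomicExtension.isGalois {q} L L'
  have hcomm := IsCyclotomicExtension.isMulCommutative {q} L L'
  -- the cocycle
  set ω : (L' ≃ₐ[L] L') → L' := fun σ => σ x / x with hω
  have hσx : ∀ σ : L' ≃ₐ[L] L', σ x = ω σ * x := fun σ => by
    rw [hω]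
    simp only
    rw [div_mul_cancel₀ _ hx0]
  have hωq : ∀ σ, ω σ ^ q = 1 := by
    intro σ
    rw [hω]
    simp only
    rw [div_pow, ← map_pow, hx, σ.commutes, div_self]
    rw [← hx]
    exact pow_ne_zero _ hx0
  have hω0 : ∀ σ, ω σ ≠ 0 := by
    intro σ h
    have := hωq σ
    rw [h, zero_pow (NeZero.ne q)] at this
    exact zero_ne_one this
  have hτω : ∀ σ, τ (ω σ) = ω σ ^ (r + 1) := by
    intro σ
    obtain ⟨i, -, hi⟩ := hζ.eq_pow_of_pow_eq_one (hωq σ)
    rw [← hi, map_pow, hτ, ← pow_mul, ← pow_mul, mul_comm]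
  have hkey : ∀ σ, σ (ω τ) = ω σ ^ r * ω τ := by
    intro σ
    have h1 : σ (τ x) = τ (σ x) := by
      have h2 : σ * τ = τ * σ := hcomm.is_comm.comm σ τ
      have h3 := congrArg (fun g : L' ≃ₐ[L] L' => g x) h2
      exact h3
    rw [hσx τ, hσx σ, map_mul, map_mul, hσx σ, hσx τ, hτω, ← mul_assoc, ← mul_assoc] at h1
    have h2 := mul_right_cancel₀ hx0 h1
    have h3 : σ (ω τ) * ω σ = (ω σ ^ r * ω τ) * ω σ := by
      rw [h2, pow_succ]; ring
    exact mul_right_cancel₀ (hω0 σ) h3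
  -- the fixed element
  have hfix : ∀ σ : L' ≃ₐ[L] L', σ (x ^ r / ω τ) = x ^ r / ω τ := by
    intro σ
    rw [map_div₀, map_pow, hσx, hkey, mul_pow, mul_div_mul_left _ _ (pow_ne_zero _ (hω0 σ))]
  obtain ⟨y, hy⟩ := IntermediateField.mem_bot.1 ((IsGalois.mem_bot_iff_fixed _).2 hfix)
  refine ⟨y, (algebraMap L L').injective ?_⟩
  rw [map_pow, hy, div_pow, hωq, div_one, ← pow_mul, mul_comm, pow_mul, hx, map_pow]

/-- an automorphism moving a root of unity -/
theorem exists_aut {p : ℕ} (hp : p.Prime) {k v : ℕ} (hv : v < k) [FiniteDimensional L L']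
    [hcyc : IsCyclotomicExtension {p ^ k} L L'] {ζ : L'} (hζ : IsPrimitiveRoot ζ (p ^ k))
    (hL : ∀ η : L, ¬ IsPrimitiveRoot η (p ^ (v + 1))) :
    ∃ (τ : L' ≃ₐ[L] L') (r : ℕ), τ ζ = ζ ^ (r + 1) ∧ ¬ p ^ (v + 1) ∣ r := by
  have hne : NeZero (p ^ k) := ⟨(pow_pos hp.pos k).ne'⟩
  have hGal : IsGalois L L' := IsCyclotomicExtension.isGalois {p ^ k} L L'
  set η : L' := ζ ^ p ^ (k - v - 1) with hη
  have hηp : IsPrimitiveRoot η (p ^ (v + 1)) := by
    refine hζ.pow (pow_pos hp.pos k) ?_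
    rw [← pow_add]
    congr 1
    omega
  have h1 : η ∉ (⊥ : IntermediateField L L') := by
    intro h
    obtain ⟨y, hy⟩ := IntermediateField.mem_bot.1 h
    apply hL y
    rw [← hy] at hηp
    exact IsPrimitiveRoot.of_map_of_injective hηp (algebraMap L L').injective
  rw [IsGalois.mem_bot_iff_fixed] at h1
  push Not at h1
  obtain ⟨τ, hτ⟩ := h1
  have h2 : (τ ζ) ^ p ^ k = 1 := by rw [← map_pow, hζ.pow_eq_one, map_one]
  obtain ⟨i, -, hi⟩ := hζ.eq_pow_of_pow_eq_one h2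
  -- replace `i` by a positive number
  refine ⟨τ, i + p ^ k - 1, ?_, ?_⟩
  · rw [← hi]
    have : i + p ^ k - 1 + 1 = i + p ^ k := by
      have := pow_pos hp.pos k
      omega
    rw [this, pow_add, hζ.pow_eq_one, mul_one]
  · intro hdvd
    apply hτ
    obtain ⟨m, hm⟩ := hdvd
    have h3 : i + p ^ k = p ^ (v + 1) * m + 1 := by
      have := pow_pos hp.pos k
      omega
    have h4 : τ ζ = ζ ^ (i + p ^ k) := by rw [← hi, pow_add, hζ.pow_eq_one, mul_one]
    rw [hη, map_pow, h4, ← pow_mul, mul_comm (i + p ^ k), pow_mul, ← hη, h3, pow_succ, pow_mul,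
      hηp.pow_eq_one, one_pow, one_mul]

end Pool.Agent.AbSplit
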