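import Pool.Agent.AbSplit.ZSq

/-!
# A number which is not a `p`-th power is not a `p`-th power modulo infinitely many primes
-/

set_option autoImplicit false

open NumberField Ideal IsDedekindDomain Polynomial

namespace Pool.Agent.AbSplit

section general

variable {L E : Type*} [Field L] [NumberField L] [Field E] [NumberField E] [Algebra L E]

/-- in a Galois extension of prime degree, if there are two primes above `P`, they have the norm
of `P` -/
lemma absNorm_eq [IsGalois L E] {p : ℕ} (hp : p.Prime) (hdeg : Module.finrank L E = p)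
    (P : Ideal (𝓞 L)) [hPp : P.IsPrime] (hP : P ≠ ⊥) (q q2 : Ideal (𝓞 E)) [hq : q.IsPrime]
    [q2.IsPrime] [q.LiesOver P] [q2.LiesOver P] (hne : q2 ≠ q) : absNorm q = absNorm P := by
  have hPm : P.IsMaximal := hPp.isMaximal hP
  have hqm : q.IsMaximal := Ideal.IsMaximal.of_liesOver_isMaximal q P
  have h := ncard_primesOver_mul_ramificationIdxIn_mul_inertiaDegIn P (𝓞 E) (Gal(E/L))
  have hcard : Nat.card Gal(E/L) = p := by
    rw [IsGaloisGroup.card_eq_finrank Gal(E/L) L E, hdeg]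
  rw [hcard] at h
  have hfin : (primesOver P (𝓞 E)).Finite := by
    by_contra hinf
    rw [Set.Infinite.ncard hinf, zero_mul] at h
    exact hp.ne_zero h.symm
  have h2 : 2 ≤ (primesOver P (𝓞 E)).ncard := by
    have h3 : ({q2, q} : Set (Ideal (𝓞 E))) ⊆ primesOver P (𝓞 E) := by
      rintro x (rfl | rfl)
      · exact ⟨inferInstance, inferInstance⟩
      · exact ⟨inferInstance, inferInstance⟩
    calc 2 = ({q2, q} : Set (Ideal (𝓞 E))).ncard := (Set.ncard_pair hne).symm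
      _ ≤ _ := Set.ncard_le_ncard h3 hfin
  have hn : (primesOver P (𝓞 E)).ncard = p := by
    rcases (Nat.dvd_prime hp).1 ⟨_, h.symm⟩ with h3 | h3
    · omega
    · exact h3
  have hef : ramificationIdxIn P (𝓞 E) * inertiaDegIn P (𝓞 E) = 1 := by
    rw [hn] at h
    exact Nat.eq_of_mul_eq_mul_left hp.pos (by rw [h, mul_one])
  have hf : inertiaDegIn P (𝓞 E) = 1 := Nat.eq_one_of_mul_eq_one_left hef
  rw [inertiaDegIn_eq_inertiaDeg P q (Gal(E/L)), inertiaDeg_eq_of_isMaximal P q] at hf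
  rw [absNorm_eq_pow_inertiaDeg'_of_liesOver q P hPp hP, inertiaDeg'_algebraMap, hf, pow_one]

omit [NumberField L] [NumberField E] in
/-- the prime obtained from `q` by an automorphism -/
lemma comap_aut (s : E ≃ₐ[L] E) (q : Ideal (𝓞 E)) [hq : q.IsPrime] (P : Ideal (𝓞 L))
    [hPq : q.LiesOver P] :
    (q.comap (RingOfIntegers.mapRingEquiv (s : E ≃+* E))).IsPrime ∧
      (q.comap (RingOfIntegers.mapRingEquiv (s : E ≃+* E))).LiesOver P := by
  refine ⟨inferInstance, ⟨?_⟩⟩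
  rw [hPq.over]
  ext y
  show algebraMap (𝓞 L) (𝓞 E) y ∈ q ↔
    RingOfIntegers.mapRingEquiv (s : E ≃+* E) (algebraMap (𝓞 L) (𝓞 E) y) ∈ q
  have : RingOfIntegers.mapRingEquiv (s : E ≃+* E) (algebraMap (𝓞 L) (𝓞 E) y) =
      algebraMap (𝓞 L) (𝓞 E) y := by
    apply RingOfIntegers.ext
    show s (algebraMap L E y) = algebraMap L E y
    exact s.commutes _
  rw [this]

omit [NumberField L] [NumberField E] in
/-- two primes above a prime modulo which `c` is a `p`-th power -/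
lemma two_primes {p : ℕ} (hp : p.Prime) {ζ : 𝓞 L} (hζ : IsPrimitiveRoot ζ p) {c : 𝓞 L}
    (s : E ≃ₐ[L] E) (x : 𝓞 E) (hx : x ^ p = algebraMap (𝓞 L) (𝓞 E) c)
    (hs : RingOfIntegers.mapRingEquiv (s : E ≃+* E) x = algebraMap (𝓞 L) (𝓞 E) ζ * x)
    (P : Ideal (𝓞 L)) [hPp : P.IsPrime] (hpP : (p : 𝓞 L) ∉ P) (hcP : c ∉ P) (y : 𝓞 L)
    (hy : y ^ p - c ∈ P) (q : Ideal (𝓞 E)) [hq : q.IsPrime] [hqP : q.LiesOver P] :
    q.comap (RingOfIntegers.mapRingEquiv (s : E ≃+* E)) ≠ q := by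
  intro heq
  have hmem : ∀ z : 𝓞 L, algebraMap (𝓞 L) (𝓞 E) z ∈ q ↔ z ∈ P := by
    intro z
    rw [hqP.over]
    rfl
  have hfix : ∀ z : 𝓞 L, RingOfIntegers.mapRingEquiv (s : E ≃+* E)
      (algebraMap (𝓞 L) (𝓞 E) z) = algebraMap (𝓞 L) (𝓞 E) z := by
    intro z
    apply RingOfIntegers.ext
    show s (algebraMap L E z) = algebraMap L E z
    exact s.commutes _
  have hζE : IsPrimitiveRoot (algebraMap (𝓞 L) (𝓞 E) ζ) p :=
    hζ.map_of_injective (FaithfulSMul.algebraMap_injective (𝓞 L) (𝓞 E))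
  -- a factor
  have h1 : x ^ p - (algebraMap (𝓞 L) (𝓞 E) y) ^ p ∈ q := by
    have : x ^ p - (algebraMap (𝓞 L) (𝓞 E) y) ^ p =
        - algebraMap (𝓞 L) (𝓞 E) (y ^ p - c) := by
      rw [hx, map_sub, map_pow]; ring
    rw [this, neg_mem_iff, hmem]
    exact hy
  rw [hζE.pow_sub_pow_eq_prod_sub_mul _ _ hp.pos, hq.prod_mem_iff] at h1
  obtain ⟨μ, hμ, h2⟩ := h1
  have hμ' : μ ^ p = 1 := (Polynomial.mem_nthRootsFinset hp.pos (1 : 𝓞 E)).1 hμ
  have : NeZero p := ⟨hp.ne_zero⟩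
  obtain ⟨i, -, hi⟩ := hζE.eq_pow_of_pow_eq_one hμ'
  have hμfix : RingOfIntegers.mapRingEquiv (s : E ≃+* E) μ = μ := by
    rw [← hi, map_pow, hfix]
  -- apply the automorphism
  have h3 : algebraMap (𝓞 L) (𝓞 E) ζ * x - μ * algebraMap (𝓞 L) (𝓞 E) y ∈ q := by
    have h4 : x - μ * algebraMap (𝓞 L) (𝓞 E) y ∈
        q.comap (RingOfIntegers.mapRingEquiv (s : E ≃+* E)) := by
      rw [heq]; exact h2
    have h5 : RingOfIntegers.mapRingEquiv (s : E ≃+* E)
        (x - μ * algebraMap (𝓞 L) (𝓞 E) y) ∈ q := h4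
    rwa [map_sub, map_mul, hs, hμfix, hfix] at h5
  have h6 : algebraMap (𝓞 L) (𝓞 E) (ζ - 1) * x ∈ q := by
    have : algebraMap (𝓞 L) (𝓞 E) (ζ - 1) * x =
        (algebraMap (𝓞 L) (𝓞 E) ζ * x - μ * algebraMap (𝓞 L) (𝓞 E) y) -
        (x - μ * algebraMap (𝓞 L) (𝓞 E) y) := by
      rw [map_sub, map_one]; ring
    rw [this]
    exact sub_mem h3 h2
  rcases hq.mem_or_mem h6 with h7 | h7
  · rw [hmem] at h7
    apply hpP
    have h8 := hζ.geom_sum_eq_zero hp.one_lt
    have h9 : ∀ i ∈ Finset.range p, ζ ^ i - 1 ∈ P := by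
      intro i _
      obtain ⟨r, hr⟩ := sub_dvd_pow_sub_pow ζ 1 i
      rw [one_pow] at hr
      rw [hr]
      exact Ideal.mul_mem_right _ _ h7
    have h10 := Ideal.sum_mem P h9
    rw [Finset.sum_sub_distrib, h8, Finset.sum_const, Finset.card_range, zero_sub,
      neg_mem_iff, nsmul_eq_mul, mul_one] at h10
    exact h10
  · apply hcP
    rw [← hmem, ← hx]
    exact Ideal.pow_mem_of_mem q h7 p hp.pos

end general

/-- A number `c` of a number field with a primitive `p`-th root of unity, which is not a `p`-th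
power, is not a `p`-th power modulo infinitely many primes. -/
theorem exists_prime_not_pow {p : ℕ} (hp : p.Prime) (L : Type*) [Field L] [NumberField L]
    {ζ : L} (hζ : IsPrimitiveRoot ζ p) (c : 𝓞 L) (hc : ∀ x : L, x ^ p ≠ c)
    (T : Set (Ideal (𝓞 L))) (hT : T.Finite) :
    ∃ w : HeightOneSpectrum (𝓞 L), w.asIdeal ∉ T ∧ (p : 𝓞 L) ∉ w.asIdeal ∧ c ∉ w.asIdeal ∧
      ∀ y : 𝓞 L, y ^ p - c ∉ w.asIdeal := by
  classical
  by_contra hcon
  push Not at hcon
  have : NeZero p := ⟨hp.ne_zero⟩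
  have hc0 : c ≠ 0 := by
    rintro rfl
    exact hc 0 (by rw [zero_pow hp.ne_zero]; rfl)
  have hirr : Irreducible (X ^ p - C (c : L)) := X_pow_sub_C_irreducible_of_prime hp hc
  have hfact : Fact (Irreducible (X ^ p - C (c : L))) := ⟨hirr⟩
  have hprim : (primitiveRoots p L).Nonempty := ⟨ζ, (mem_primitiveRoots hp.pos).2 hζ⟩
  let E := AdjoinRoot (X ^ p - C (c : L))
  have hsplit : IsSplittingField L E (X ^ p - C (c : L)) :=
    isSplittingField_AdjoinRoot_X_pow_sub_C hprim hirr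
  have hfinE : Module.Finite L E := (hsplit.finiteDimensional E (X ^ p - C (c : L)))
  have hNF : NumberField E := NumberField.of_module_finite L E
  have hGal : IsGalois L E := isGalois_of_isSplittingField_X_pow_sub_C hprim hirr E
  have hdeg : Module.finrank L E = p := finrank_of_isSplittingField_X_pow_sub_C hprim hirr E
  let r : E := AdjoinRoot.root (X ^ p - C (c : L))
  have hr : r ^ p = algebraMap L E c := by
    have := root_X_pow_sub_C_pow p (c : L)
    rw [AdjoinRoot.algebraMap_eq]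
    exact this
  have hrint : IsIntegral ℤ r := by
    refine IsIntegral.of_pow hp.pos ?_
    rw [hr]
    exact (show IsIntegral ℤ (c : L) from c.2).algebraMap
  let x : 𝓞 E := ⟨r, hrint⟩
  have hx : x ^ p = algebraMap (𝓞 L) (𝓞 E) c := by
    apply RingOfIntegers.ext
    show (x : E) ^ p = algebraMap L E c
    exact hr
  let s : E ≃ₐ[L] E := autAdjoinRootXPowSubC p (c : L) (rootsOfUnity.mkOfPowEq ζ hζ.pow_eq_one)
  have hs0 : s r = algebraMap L E ζ * r := by
    have := autAdjoinRootXPowSubC_root (c : L) (rootsOfUnity.mkOfPowEq ζ hζ.pow_eq_one)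
    rw [rootsOfUnity.val_mkOfPowEq_coe, Algebra.smul_def] at this
    exact this
  have hs : RingOfIntegers.mapRingEquiv (s : E ≃+* E) x =
      algebraMap (𝓞 L) (𝓞 E) hζ.toInteger * x := by
    apply RingOfIntegers.ext
    show s r = algebraMap L E ζ * r
    exact hs0
  -- the exceptional set
  have hpc : Ideal.span {(p : 𝓞 L) * c} ≠ 0 := by
    rw [Ne, Submodule.zero_eq_bot, Ideal.span_singleton_eq_bot]
    exact mul_ne_zero (by exact_mod_cast hp.ne_zero) hc0
  have hfin1 : (HeightOneSpectrum.asIdeal ''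
      {v : HeightOneSpectrum (𝓞 L) | v.asIdeal ∣ Ideal.span {(p : 𝓞 L) * c}}).Finite :=
    (Ideal.finite_factors hpc).image _
  have hfin2 : {P ∈ T | P ≠ ⊥ ∧ P ≠ ⊤}.Finite := hT.subset (Set.sep_subset _ _)
  refine no_two_above (L := L) (E := E) (hfin1.toFinset ∪ hfin2.toFinset) ?_ ?_
  · intro P hP
    rw [Finset.mem_union, Set.Finite.mem_toFinset, Set.Finite.mem_toFinset] at hP
    rcases hP with ⟨v, -, rfl⟩ | h
    · exact ⟨v.ne_bot, v.isPrime.ne_top⟩
    · exact h.2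
  · intro P hPp hP0 hPT
    rw [Finset.mem_union, Set.Finite.mem_toFinset, Set.Finite.mem_toFinset, not_or] at hPT
    obtain ⟨h1, h2⟩ := hPT
    have h3 : P ∉ T := fun h => h2 ⟨h, hP0, hPp.ne_top⟩
    have h4 : (p : 𝓞 L) ∉ P := by
      intro h
      apply h1
      refine ⟨⟨P, hPp, hP0⟩, ?_, rfl⟩
      show P ∣ _
      rw [Ideal.dvd_span_singleton]
      exact Ideal.mul_mem_right _ _ h
    have h5 : c ∉ P := by
      intro h
      apply h1
      refine ⟨⟨P, hPp, hP0⟩, ?_, rfl⟩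
      show P ∣ _
      rw [Ideal.dvd_span_singleton]
      exact Ideal.mul_mem_left _ _ h
    obtain ⟨y, hy⟩ := hcon ⟨P, hPp, hP0⟩ h3 h4 h5
    have hPm : P.IsMaximal := hPp.isMaximal hP0
    obtain ⟨q, hq1, hq2⟩ := exists_maximal_ideal_liesOver_of_isIntegral (S := 𝓞 E) P
    have hqp := hq1.isPrime
    obtain ⟨k1, k2⟩ := comap_aut s q P
    have hne := two_primes hp (hζ.toInteger_isPrimitiveRoot) s x hx hs P h4 h5 y hy q
    have hbot : ∀ Q : Ideal (𝓞 E), Q.LiesOver P → Q ≠ ⊥ := by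
      rintro Q hQ rfl
      apply hP0
      rw [hQ.over]
      exact Ideal.comap_bot_of_injective _ (FaithfulSMul.algebraMap_injective _ _)
    exact ⟨q, q.comap (RingOfIntegers.mapRingEquiv (s : E ≃+* E)),
      ⟨hqp, hbot q hq2, hq2.over.symm, absNorm_eq hp hdeg P hP0 q _ hne⟩,
      ⟨k1, hbot _ k2, k2.over.symm, absNorm_eq hp hdeg P hP0 _ q hne.symm⟩, hne⟩

end Pool.Agent.AbSplit
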