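import Pool.Agent.AbSplit.Split

/-!
# Prime power exponents
-/

set_option autoImplicit false

open NumberField Ideal IsDedekindDomain Polynomial

namespace Pool.Agent.AbSplit

/-- A number `b` of a number field with a primitive `p ^ k`-th root of unity, which is not a
`p ^ k`-th power, is not a `p ^ k`-th power modulo infinitely many primes. -/
theorem exists_prime_not_pow_pow {p : ℕ} (hp : p.Prime) (L : Type*) [Field L] [NumberField L]
    {k : ℕ} {ζ : 𝓞 L} (hζ : IsPrimitiveRoot ζ (p ^ k)) (b : 𝓞 L)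
    (hb : ∀ x : 𝓞 L, x ^ p ^ k ≠ b) (T : Set (Ideal (𝓞 L))) (hT : T.Finite) :
    ∃ w : HeightOneSpectrum (𝓞 L), w.asIdeal ∉ T ∧ ∀ y : 𝓞 L, y ^ p ^ k - b ∉ w.asIdeal := by
  classical
  have hk : k ≠ 0 := by
    rintro rfl
    exact hb b (by rw [pow_zero, pow_one])
  -- the largest `j < k` such that `b` is a `p ^ j`-th power
  obtain ⟨j, hjk, ⟨c, hcb⟩, hmax⟩ : ∃ j, j < k ∧ (∃ c : 𝓞 L, c ^ p ^ j = b) ∧
      ∀ x : 𝓞 L, x ^ p ^ (j + 1) ≠ b := by
    by_contra hcon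
    push Not at hcon
    have : ∀ j, j ≤ k → ∃ c : 𝓞 L, c ^ p ^ j = b := by
      intro j
      induction j with
      | zero => intro _; exact ⟨b, by rw [pow_zero, pow_one]⟩
      | succ j ih =>
        intro hj
        obtain ⟨c, hc⟩ := ih (by omega)
        exact hcon j (by omega) ⟨c, hc⟩
    obtain ⟨c, hc⟩ := this k le_rfl
    exact hb c hc
  have hcp : ∀ x : L, x ^ p ≠ c := by
    intro x hx
    have hint : IsIntegral ℤ x := by
      refine IsIntegral.of_pow hp.pos ?_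
      rw [hx]
      exact c.2
    obtain ⟨x', hx'⟩ : ∃ x' : 𝓞 L, (x' : L) = x := ⟨⟨x, hint⟩, rfl⟩
    apply hmax x'
    have h1 : x' ^ p = c := by
      apply RingOfIntegers.ext
      rw [← hx, ← hx']
      rfl
    rw [pow_succ' p j, pow_mul, h1, hcb]
  -- the primitive `p`-th root
  have hζp : IsPrimitiveRoot ((ζ ^ p ^ (k - 1) : 𝓞 L) : L) p := by
    have h1 : IsPrimitiveRoot (ζ ^ p ^ (k - 1)) p := by
      refine hζ.pow (pow_pos hp.pos _) ?_
      rw [← pow_succ]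
      congr 1
      omega
    exact h1.map_of_injective RingOfIntegers.coe_injective
  obtain ⟨w, hw1, -, -, hw4⟩ := exists_prime_not_pow hp L hζp c hcp T hT
  refine ⟨w, hw1, fun y hy => ?_⟩
  have hwp := w.isPrime
  -- `y ^ p ^ k - b` is a product
  have hμ : IsPrimitiveRoot (ζ ^ p ^ (k - j)) (p ^ j) := by
    refine hζ.pow (pow_pos hp.pos _) ?_
    rw [← pow_add]
    congr 1
    omega
  have h1 : (y ^ p ^ (k - j)) ^ p ^ j - c ^ p ^ j ∈ w.asIdeal := by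
    rw [← pow_mul, ← pow_add, show k - j + j = k by omega, hcb]
    exact hy
  rw [hμ.pow_sub_pow_eq_prod_sub_mul _ _ (pow_pos hp.pos j), hwp.prod_mem_iff] at h1
  obtain ⟨μ, hμ1, h2⟩ := h1
  have hμ2 : μ ^ p ^ j = 1 := (Polynomial.mem_nthRootsFinset (pow_pos hp.pos j) (1 : 𝓞 L)).1 hμ1
  have : NeZero (p ^ j) := ⟨(pow_pos hp.pos j).ne'⟩
  obtain ⟨i, -, hi⟩ := hμ.eq_pow_of_pow_eq_one hμ2
  -- `μ` is a `p`-th power
  set ν : 𝓞 L := ζ ^ (p ^ (k - j - 1) * i) with hν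
  have hνμ : ν ^ p = μ := by
    rw [← hi, hν, ← pow_mul, ← pow_mul]
    congr 1
    have : p ^ (k - j) = p ^ (k - j - 1) * p := by
      rw [← pow_succ]
      congr 1
      omega
    rw [this]; ring
  have hνk : ν ^ p ^ k = 1 := by
    rw [hν, ← pow_mul, mul_comm, pow_mul, hζ.pow_eq_one, one_pow]
  have hpk : 0 < p ^ k := pow_pos hp.pos k
  apply hw4 (ν ^ (p ^ k - 1) * y ^ p ^ (k - j - 1))
  have h3 : (ν ^ (p ^ k - 1) * y ^ p ^ (k - j - 1)) ^ p - c =
      ν ^ (p * (p ^ k - 1)) * (y ^ p ^ (k - j) - μ * c) +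
        (ν ^ (p * (p ^ k - 1)) * μ - 1) * c := by
    have : y ^ p ^ (k - j) = (y ^ p ^ (k - j - 1)) ^ p := by
      rw [← pow_mul, ← pow_succ]
      congr 2
      omega
    rw [this, mul_pow, ← pow_mul, mul_comm (p ^ k - 1) p]
    ring
  have h4 : ν ^ (p * (p ^ k - 1)) * μ = 1 := by
    rw [← hνμ, ← pow_add]
    have : p * (p ^ k - 1) + p = p ^ k * p := by
      obtain ⟨m, hm⟩ := Nat.exists_eq_succ_of_ne_zero hpk.ne'
      rw [hm, Nat.succ_eq_add_one, Nat.add_sub_cancel]; ring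
    rw [this, pow_mul, hνk, one_pow]
  rw [h3, h4, sub_self, zero_mul, add_zero]
  exact Ideal.mul_mem_left _ _ h2

theorem exists_prime_not_pow_q {p : ℕ} (hp : p.Prime) (L : Type*) [Field L] [NumberField L]
    {k q : ℕ} (hq : q = p ^ k) {ζ : 𝓞 L} (hζ : IsPrimitiveRoot ζ q) (b : 𝓞 L)
    (hb : ∀ x : 𝓞 L, x ^ q ≠ b) :
    ∃ w : HeightOneSpectrum (𝓞 L), ∀ y : 𝓞 L, y ^ q - b ∉ w.asIdeal := by
  subst hq
  obtain ⟨w, -, hw⟩ := exists_prime_not_pow_pow hp L hζ b hb ∅ Set.finite_empty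
  exact ⟨w, hw⟩

end Pool.Agent.AbSplit
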