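import Pool.Agent.AbSplit.UnitsP

/-!
# Units congruent to `1` modulo a suitable integer are `e`-th powers
-/

set_option autoImplicit false

open NumberField Ideal IsDedekindDomain

namespace Pool.Agent.AbSplit

variable (L : Type*) [Field L] [NumberField L]

/-- Units close to `1` are, up to roots of unity, `N`-th powers. -/
theorem units_N (N : ℕ) (hN : 0 < N) : ∃ M : ℕ, 0 < M ∧ ∀ u : (𝓞 L)ˣ,
    (M : 𝓞 L) ∣ (u : 𝓞 L) - 1 → ∃ μ z : (𝓞 L)ˣ, IsOfFinOrder μ ∧ u = μ * z ^ N := by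
  induction N using Nat.recOnPosPrimePosCoprime with
  | prime_pow p k hp hk => exact units_p L hp k
  | zero => exact absurd hN (lt_irrefl 0)
  | one => exact ⟨1, one_pos, fun u _ => ⟨1, u, IsOfFinOrder.one, by rw [one_mul, pow_one]⟩⟩
  | coprime a b ha hb hab iha ihb =>
    obtain ⟨M1, hM1, h1⟩ := iha (by omega)
    obtain ⟨M2, hM2, h2⟩ := ihb (by omega)
    refine ⟨M1 * M2, Nat.mul_pos hM1 hM2, fun u hu => ?_⟩
    rw [Nat.cast_mul] at hu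
    obtain ⟨μ1, z1, hμ1, e1⟩ := h1 u (dvd_trans (Dvd.intro _ rfl) hu)
    obtain ⟨μ2, z2, hμ2, e2⟩ := h2 u (dvd_trans (Dvd.intro_left _ rfl) hu)
    have hbez := Nat.gcd_eq_gcd_ab a b
    rw [hab, Nat.cast_one] at hbez
    set α := Nat.gcdA a b
    set β := Nat.gcdB a b
    refine ⟨μ2 ^ ((a : ℤ) * α) * μ1 ^ ((b : ℤ) * β), z2 ^ α * z1 ^ β,
      hμ2.zpow.mul hμ1.zpow, ?_⟩
    have h3 : u = u ^ ((a : ℤ) * α) * u ^ ((b : ℤ) * β) := by
      rw [← zpow_add, ← hbez, zpow_one]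
    have h4 : u ^ ((a : ℤ) * α) = μ2 ^ ((a : ℤ) * α) * (z2 ^ α) ^ (a * b) := by
      rw [e2, mul_zpow]
      congr 1
      rw [← zpow_natCast, ← zpow_natCast, ← zpow_mul, ← zpow_mul]
      congr 1
      push_cast
      ring
    have h5 : u ^ ((b : ℤ) * β) = μ1 ^ ((b : ℤ) * β) * (z1 ^ β) ^ (a * b) := by
      rw [e1, mul_zpow]
      congr 1
      rw [← zpow_natCast, ← zpow_natCast, ← zpow_mul, ← zpow_mul]
      congr 1
      push_cast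
      ring
    rw [h4, h5] at h3
    rw [h3, mul_pow]
    exact mul_mul_mul_comm _ _ _ _

/-- a nonzero integer is not divisible by some positive integer -/
lemma exists_not_dvd (x : 𝓞 L) (hx : x ≠ 0) : ∃ n : ℕ, 0 < n ∧ ¬ (n : 𝓞 L) ∣ x := by
  have ha : absNorm (Ideal.span {x}) ≠ 0 := by
    rw [Ne, absNorm_eq_zero_iff, Ideal.span_singleton_eq_bot]
    exact hx
  refine ⟨absNorm (Ideal.span {x}) + 1, Nat.succ_pos _, fun h => ?_⟩
  have h1 : Ideal.span {x} ≤ Ideal.span {((absNorm (Ideal.span {x}) + 1 : ℕ) : 𝓞 L)} :=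
    Ideal.span_singleton_le_span_singleton.2 h
  have h2 := absNorm_dvd_absNorm_of_le h1
  have h3 : absNorm (Ideal.span {((absNorm (Ideal.span {x}) + 1 : ℕ) : 𝓞 L)}) =
      (absNorm (Ideal.span {x}) + 1) ^ Module.finrank ℤ (𝓞 L) := by
    rw [absNorm_span_singleton]
    have := Algebra.norm_algebraMap (S := 𝓞 L) ((absNorm (Ideal.span {x}) + 1 : ℕ) : ℤ)
    rw [map_natCast] at this
    rw [this, Int.natAbs_pow, Int.natAbs_natCast]
  rw [h3] at h2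
  have h4 := Nat.le_of_dvd (Nat.pos_of_ne_zero ha) h2
  have h5 : absNorm (Ideal.span {x}) + 1 ≤
      (absNorm (Ideal.span {x}) + 1) ^ Module.finrank ℤ (𝓞 L) :=
    Nat.le_self_pow Module.finrank_pos.ne' _
  omega

/-- a root of unity close to `1` is `1` -/
lemma exists_torsion : ∃ M : ℕ, 0 < M ∧ ∀ μ : (𝓞 L)ˣ, IsOfFinOrder μ →
    (M : 𝓞 L) ∣ (μ : 𝓞 L) - 1 → μ = 1 := by
  classical
  have hfin : Finite (Units.torsion L) := inferInstance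
  have := Fintype.ofFinite (Units.torsion L)
  have h : ∀ μ : Units.torsion L, ∃ n : ℕ, 0 < n ∧
      ((n : 𝓞 L) ∣ ((μ : (𝓞 L)ˣ) : 𝓞 L) - 1 → (μ : (𝓞 L)ˣ) = 1) := by
    intro μ
    by_cases hμ : (μ : (𝓞 L)ˣ) = 1
    · exact ⟨1, one_pos, fun _ => hμ⟩
    · obtain ⟨n, hn, hn2⟩ := exists_not_dvd L (((μ : (𝓞 L)ˣ) : 𝓞 L) - 1) (by
        rw [sub_ne_zero]
        exact fun h => hμ (Units.ext h))
      exact ⟨n, hn, fun h => absurd h hn2⟩
  choose n hn0 hn using h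
  refine ⟨∏ μ : Units.torsion L, n μ, Finset.prod_pos fun μ _ => hn0 μ, fun μ hμ hdvd => ?_⟩
  have hmem : μ ∈ Units.torsion L := by
    rw [Units.torsion, CommGroup.mem_torsion]; exact hμ
  refine hn ⟨μ, hmem⟩ (dvd_trans ?_ hdvd)
  exact Nat.cast_dvd_cast (Finset.dvd_prod_of_mem n (Finset.mem_univ _))

/-- Units congruent to `1` modulo a suitable integer are `e`-th powers (Chevalley). -/
theorem units_congruence (e : ℕ) (he : 0 < e) : ∃ M : ℕ, 0 < M ∧ ∀ u : (𝓞 L)ˣ,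
    (M : 𝓞 L) ∣ (u : 𝓞 L) - 1 → ∃ z : (𝓞 L)ˣ, u = z ^ e := by
  obtain ⟨M1, hM1, h1⟩ := exists_torsion L
  have hne : Ideal.span {(M1 : 𝓞 L)} ≠ ⊥ := by
    rw [Ne, Ideal.span_singleton_eq_bot]
    exact_mod_cast hM1.ne'
  have hfinQ : Finite (𝓞 L ⧸ Ideal.span {(M1 : 𝓞 L)}) := Ideal.finiteQuotientOfFreeOfNeBot _ hne
  have hfinU : Finite (𝓞 L ⧸ Ideal.span {(M1 : 𝓞 L)})ˣ := inferInstance
  have hcard : 0 < Nat.card (𝓞 L ⧸ Ideal.span {(M1 : 𝓞 L)})ˣ := Nat.card_pos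
  obtain ⟨M2, hM2, h2⟩ := units_N L (e * Nat.card (𝓞 L ⧸ Ideal.span {(M1 : 𝓞 L)})ˣ)
    (Nat.mul_pos he hcard)
  refine ⟨M1 * M2, Nat.mul_pos hM1 hM2, fun u hu => ?_⟩
  rw [Nat.cast_mul] at hu
  have hu1 : (M1 : 𝓞 L) ∣ (u : 𝓞 L) - 1 := dvd_trans (Dvd.intro _ rfl) hu
  obtain ⟨μ, z, hμ, huz⟩ := h2 u (dvd_trans (Dvd.intro_left _ rfl) hu)
  -- reduce modulo `M1`
  have hz : Units.map (Ideal.Quotient.mk (Ideal.span {(M1 : 𝓞 L)})).toMonoidHom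
      (z ^ (e * Nat.card (𝓞 L ⧸ Ideal.span {(M1 : 𝓞 L)})ˣ)) = 1 := by
    rw [map_pow, mul_comm, pow_mul, pow_card_eq_one', one_pow]
  have hu3 : Units.map (Ideal.Quotient.mk (Ideal.span {(M1 : 𝓞 L)})).toMonoidHom u = 1 := by
    apply Units.ext
    show Ideal.Quotient.mk (Ideal.span {(M1 : 𝓞 L)}) (u : 𝓞 L) = 1
    rw [← map_one (Ideal.Quotient.mk (Ideal.span {(M1 : 𝓞 L)})),
      Ideal.Quotient.mk_eq_mk_iff_sub_mem, Ideal.mem_span_singleton]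
    exact hu1
  have hμ3 : Units.map (Ideal.Quotient.mk (Ideal.span {(M1 : 𝓞 L)})).toMonoidHom μ = 1 := by
    rw [huz, map_mul, hz, mul_one] at hu3
    exact hu3
  have hμ4 : (M1 : 𝓞 L) ∣ (μ : 𝓞 L) - 1 := by
    have h3 := congrArg Units.val hμ3
    have h4 : Ideal.Quotient.mk (Ideal.span {(M1 : 𝓞 L)}) (μ : 𝓞 L) =
        Ideal.Quotient.mk (Ideal.span {(M1 : 𝓞 L)}) 1 := by
      rw [map_one]; exact h3
    rwa [Ideal.Quotient.mk_eq_mk_iff_sub_mem, Ideal.mem_span_singleton] at h4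
  have hμ5 := h1 μ hμ hμ4
  refine ⟨z ^ Nat.card (𝓞 L ⧸ Ideal.span {(M1 : 𝓞 L)})ˣ, ?_⟩
  rw [huz, hμ5, one_mul, ← pow_mul, mul_comm]

end Pool.Agent.AbSplit
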