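import Pool.Agent.AbSplit.SplitPow
import Pool.Agent.AbSplit.Sah

/-!
# Units congruent to `1`, prime power exponents
-/

set_option autoImplicit false

open NumberField Ideal IsDedekindDomain

namespace Pool.Agent.AbSplit

variable (L : Type*) [Field L] [NumberField L]

lemma units_fg : Group.FG (𝓞 L)ˣ := Group.fg_iff_monoid_fg.2 inferInstance

/-- there are finitely many classes modulo `n`-th powers -/
lemma finite_classes (n : ℕ) (hn : 0 < n) :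
    Finite ((𝓞 L)ˣ ⧸ (powMonoidHom n : (𝓞 L)ˣ →* (𝓞 L)ˣ).range) := by
  have := units_fg L
  have h1 : Group.FG ((𝓞 L)ˣ ⧸ (powMonoidHom n : (𝓞 L)ˣ →* (𝓞 L)ˣ).range) := QuotientGroup.fg _
  refine CommGroup.finite_of_fg_isMulTorsion _ ?_
  intro x
  obtain ⟨u, rfl⟩ := QuotientGroup.mk_surjective x
  rw [isOfFinOrder_iff_pow_eq_one]
  refine ⟨n, hn, ?_⟩
  rw [← QuotientGroup.mk_pow, QuotientGroup.eq_one_iff]
  exact ⟨u, rfl⟩

/-- `L` has no primitive `p ^ (v + 1)`-th root of unity for large `v` -/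
lemma exists_no_root {p : ℕ} (hp : p.Prime) : ∃ v : ℕ, ∀ η : L, ¬ IsPrimitiveRoot η (p ^ (v + 1)) := by
  refine ⟨Units.torsionOrder L, fun η hη => ?_⟩
  have hpos : 0 < p ^ (Units.torsionOrder L + 1) := pow_pos hp.pos _
  have hint : IsIntegral ℤ η := hη.isIntegral hpos
  obtain ⟨η', rfl⟩ : ∃ η' : 𝓞 L, (η' : L) = η := ⟨⟨η, hint⟩, rfl⟩
  have h1 : IsPrimitiveRoot η' (p ^ (Units.torsionOrder L + 1)) :=
    IsPrimitiveRoot.of_map_of_injective (f := algebraMap (𝓞 L) L) hη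
      RingOfIntegers.coe_injective
  have h2 : IsPrimitiveRoot (h1.isUnit hpos.ne').unit (p ^ (Units.torsionOrder L + 1)) :=
    h1.isUnit_unit hpos.ne'
  have h3 : (h1.isUnit hpos.ne').unit ∈ Units.torsion L := by
    rw [Units.torsion, CommGroup.mem_torsion, isOfFinOrder_iff_pow_eq_one]
    exact ⟨_, hpos, h2.pow_eq_one⟩
  have h4 : (p ^ (Units.torsionOrder L + 1)) ∣ Units.torsionOrder L := by
    have h5 : (⟨_, h3⟩ : Units.torsion L) ^ Units.torsionOrder L = 1 := pow_card_eq_one'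
    apply h2.dvd_of_pow_eq_one
    exact congrArg Subtype.val h5
  have h6 := Nat.le_of_dvd (Units.torsionOrder_pos L) h4
  have h7 : Units.torsionOrder L + 1 < p ^ (Units.torsionOrder L + 1) :=
    Nat.lt_pow_self hp.one_lt
  omega

variable {L} in
omit [NumberField L] in
/-- the last step: Bezout -/
lemma bezout_step {p : ℕ} (hp : p.Prime) {k v0 K r : ℕ} (hK : K = k + v0 + 1)
    (hr : ¬ p ^ (v0 + 1) ∣ r) (u y : (𝓞 L)ˣ) (hy : y ^ p ^ K = u ^ r) :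
    ∃ μ z : (𝓞 L)ˣ, IsOfFinOrder μ ∧ u = μ * z ^ p ^ k := by
  have hr0 : r ≠ 0 := by
    rintro rfl
    exact hr (dvd_zero _)
  obtain ⟨v, r', hr', hrv⟩ := Nat.exists_eq_pow_mul_and_not_dvd hr0 p hp.ne_one
  have hv : v ≤ v0 := by
    by_contra hcon
    apply hr
    rw [hrv]
    exact Dvd.dvd.mul_right (pow_dvd_pow p (by omega)) _
  set μ : (𝓞 L)ˣ := u ^ r' * (y ^ p ^ (K - v))⁻¹ with hμ
  have hμ1 : μ ^ p ^ v = 1 := by
    rw [hμ, mul_pow, inv_pow, ← pow_mul, ← pow_mul, ← pow_add, Nat.sub_add_cancel (by omega),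
      hy, mul_comm r', ← hrv, mul_inv_cancel]
  have hμ2 : IsOfFinOrder μ := isOfFinOrder_iff_pow_eq_one.2 ⟨_, pow_pos hp.pos v, hμ1⟩
  set z1 : (𝓞 L)ˣ := y ^ p ^ (K - v - k) with hz1
  have h1 : u ^ r' = μ * z1 ^ p ^ k := by
    rw [hz1, ← pow_mul, ← pow_add, show K - v - k + k = K - v by omega, hμ, mul_assoc,
      inv_mul_cancel, mul_one]
  have hcop : Nat.Coprime r' (p ^ k) :=
    Nat.Coprime.pow_right k ((Nat.Prime.coprime_iff_not_dvd hp).2 hr').symm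
  have hbez := Nat.gcd_eq_gcd_ab r' (p ^ k)
  rw [hcop, Nat.cast_one] at hbez
  set a := Nat.gcdA r' (p ^ k)
  set b := Nat.gcdB r' (p ^ k)
  refine ⟨μ ^ a, z1 ^ a * u ^ b, hμ2.zpow, ?_⟩
  have h2 : u = (u ^ r') ^ a * (u ^ b) ^ p ^ k := by
    rw [← zpow_natCast u r', ← zpow_mul, ← zpow_natCast (u ^ b), ← zpow_mul, ← zpow_add,
      mul_comm b, ← hbez, zpow_one]
  conv_lhs => rw [h2, h1]
  rw [mul_zpow, mul_pow, mul_assoc]
  congr 2
  rw [← zpow_natCast, ← zpow_natCast, ← zpow_mul, ← zpow_mul, mul_comm]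

/-- Units close to `1` are, up to roots of unity, `p ^ k`-th powers. -/
theorem units_p {p : ℕ} (hp : p.Prime) (k : ℕ) : ∃ M : ℕ, 0 < M ∧ ∀ u : (𝓞 L)ˣ,
    (M : 𝓞 L) ∣ (u : 𝓞 L) - 1 → ∃ μ z : (𝓞 L)ˣ, IsOfFinOrder μ ∧ u = μ * z ^ p ^ k := by
  classical
  obtain ⟨v0, hv0⟩ := exists_no_root L hp
  obtain ⟨K, hK⟩ : ∃ K, K = k + v0 + 1 := ⟨_, rfl⟩
  obtain ⟨q, hq⟩ : ∃ q, q = p ^ K := ⟨_, rfl⟩
  have hq0 : 0 < q := by rw [hq]; exact pow_pos hp.pos K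
  have hne : NeZero q := ⟨hq0.ne'⟩
  let L' := CyclotomicField q L
  have hcyc : IsCyclotomicExtension {q} L L' := inferInstance
  have hfd : FiniteDimensional L L' := IsCyclotomicExtension.finiteDimensional {q} L L'
  have hζ : IsPrimitiveRoot (IsCyclotomicExtension.zeta q L L') q :=
    IsCyclotomicExtension.zeta_spec q L L'
  have hζO := hζ.toInteger_isPrimitiveRoot
  -- the local statement
  have hloc : ∀ b : (𝓞 L)ˣ, ∃ m : ℕ, 0 < m ∧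
      ((∃ x : 𝓞 L', x ^ q = algebraMap (𝓞 L) (𝓞 L') b) ∨
        ∀ y : 𝓞 L', ¬ (m : 𝓞 L') ∣ y ^ q - algebraMap (𝓞 L) (𝓞 L') b) := by
    intro b
    by_cases h : ∃ x : 𝓞 L', x ^ q = algebraMap (𝓞 L) (𝓞 L') b
    · exact ⟨1, one_pos, Or.inl h⟩
    push Not at h
    obtain ⟨w, hw⟩ := exists_prime_not_pow_q hp L' hq hζO (algebraMap (𝓞 L) (𝓞 L') b) h
    refine ⟨absNorm w.asIdeal, Nat.pos_of_ne_zero (absNorm_eq_zero_iff.not.2 w.ne_bot),
      Or.inr fun y hy => hw y ?_⟩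
    obtain ⟨t, ht⟩ := hy
    rw [ht]
    exact Ideal.mul_mem_right _ _ (absNorm_mem _)
  choose m hm0 hm using hloc
  have hfin := finite_classes L q hq0
  have := Fintype.ofFinite ((𝓞 L)ˣ ⧸ (powMonoidHom q : (𝓞 L)ˣ →* (𝓞 L)ˣ).range)
  refine ⟨∏ c : (𝓞 L)ˣ ⧸ (powMonoidHom q : (𝓞 L)ˣ →* (𝓞 L)ˣ).range, m (Quotient.out c),
    Finset.prod_pos fun c _ => hm0 _, fun u hu => ?_⟩
  obtain ⟨b, hb⟩ : ∃ b, b = Quotient.out
    (QuotientGroup.mk u : (𝓞 L)ˣ ⧸ (powMonoidHom q : (𝓞 L)ˣ →* (𝓞 L)ˣ).range) := ⟨_, rfl⟩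
  have hmd : (m b : 𝓞 L) ∣ (u : 𝓞 L) - 1 := by
    refine dvd_trans ?_ hu
    rw [hb]
    exact Nat.cast_dvd_cast (Finset.dvd_prod_of_mem (fun c => m (Quotient.out c))
      (Finset.mem_univ _))
  have hmd' : (m b : 𝓞 L') ∣ algebraMap (𝓞 L) (𝓞 L') u - 1 := by
    have := map_dvd (algebraMap (𝓞 L) (𝓞 L')) hmd
    rwa [map_natCast, map_sub, map_one] at this
  have hbu : (QuotientGroup.mk b : (𝓞 L)ˣ ⧸ (powMonoidHom q : (𝓞 L)ˣ →* (𝓞 L)ˣ).range) =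
      QuotientGroup.mk u := by
    rw [hb]
    exact Quotient.out_eq _
  rw [QuotientGroup.eq] at hbu
  obtain ⟨z, hz⟩ := hbu
  have hz' : z ^ q = b⁻¹ * u := hz
  have hx : ∃ x : 𝓞 L', x ^ q = algebraMap (𝓞 L) (𝓞 L') u := by
    rcases hm b with ⟨x, hx⟩ | h
    · refine ⟨x * algebraMap (𝓞 L) (𝓞 L') z, ?_⟩
      rw [mul_pow, hx, ← map_pow, ← map_mul, ← Units.val_pow_eq_pow_val, hz', ← Units.val_mul,
        mul_inv_cancel_left]
    · exfalso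
      apply h (algebraMap (𝓞 L) (𝓞 L') (z⁻¹ : (𝓞 L)ˣ))
      have h1 : (z⁻¹ : (𝓞 L)ˣ) ^ q = b * u⁻¹ := by
        rw [inv_pow, hz', mul_inv_rev, inv_inv, mul_comm]
      have h2 : ((z⁻¹ : (𝓞 L)ˣ) : 𝓞 L) ^ q - b =
          (-((b * u⁻¹ : (𝓞 L)ˣ) : 𝓞 L)) * ((u : 𝓞 L) - 1) := by
        rw [← Units.val_pow_eq_pow_val, h1]
        have h3 : ((b * u⁻¹ : (𝓞 L)ˣ) : 𝓞 L) * (u : 𝓞 L) = b := by
          rw [← Units.val_mul, inv_mul_cancel_right]
        linear_combination h3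
      rw [← map_pow, ← map_sub, h2, map_mul, map_sub _ (u : 𝓞 L) 1, map_one]
      exact Dvd.dvd.mul_left hmd' _
  -- descend
  obtain ⟨x, hx⟩ := hx
  have hcyc' : IsCyclotomicExtension {p ^ K} L L' := by rw [← hq]; exact hcyc
  have hζ' : IsPrimitiveRoot (IsCyclotomicExtension.zeta q L L') (p ^ K) := by
    rw [← hq]; exact hζ
  obtain ⟨τ, r, hτ, hr⟩ := exists_aut (L := L) (L' := L') hp (show v0 < K by omega) hζ' hv0
  have hxL : (x : L') ^ q = algebraMap L L' (u : 𝓞 L) := by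
    have := congrArg (fun t : 𝓞 L' => (t : L')) hx
    exact this
  have hx0 : (x : L') ≠ 0 := by
    intro h
    rw [h, zero_pow hq0.ne'] at hxL
    have h1 : ((u : 𝓞 L) : L) = 0 := (algebraMap L L').injective (by rw [← hxL, map_zero])
    exact u.ne_zero (RingOfIntegers.coe_injective h1)
  obtain ⟨y, hy⟩ := sah hζ (x : L') hx0 ((u : 𝓞 L) : L) hxL τ r hτ
  have hyint : IsIntegral ℤ y := by
    refine IsIntegral.of_pow hq0 ?_
    rw [hy]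
    exact IsIntegral.pow (u : 𝓞 L).2 r
  obtain ⟨y0, rfl⟩ : ∃ y0 : 𝓞 L, (y0 : L) = y := ⟨⟨y, hyint⟩, rfl⟩
  have hy0 : y0 ^ q = (u : 𝓞 L) ^ r := RingOfIntegers.coe_injective hy
  have hyu : IsUnit y0 := by
    have h1 : IsUnit (y0 ^ q) := by rw [hy0]; exact u.isUnit.pow r
    exact (isUnit_pow_iff hq0.ne').1 h1
  obtain ⟨y1, rfl⟩ := hyu
  refine bezout_step hp hK hr u y1 ?_
  apply Units.ext
  rw [← hq, Units.val_pow_eq_pow_val, Units.val_pow_eq_pow_val]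
  exact hy0

end Pool.Agent.AbSplit
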