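import Pool.Agent.Arb.Zeta

/-!
# Comparison of the zeta functions of two number fields
-/

set_option autoImplicit false

open NumberField Filter Topology ENNReal Ideal IsDedekindDomain

namespace Pool.Agent.AbSplit

open Pool.Agent.Arb

noncomputable section

variable {L E : Type*} [Field L] [NumberField L] [Field E] [NumberField E] [Algebra L E]

/-- the combinatorial heart: if all primes outside `T` have two primes of the same norm above them,
then pairs of ideals below inject into the ideals above -/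
lemma Z_sq_le (T : Set (Ideal (𝓞 L))) (q q2 : Ideal (𝓞 L) → Ideal (𝓞 E))
    (hq : ∀ P : Ideal (𝓞 L), P.IsPrime → P ≠ ⊥ → P ∉ T →
      ((q P).IsPrime ∧ q P ≠ ⊥ ∧ (q P).under (𝓞 L) = P ∧ absNorm (q P) = absNorm P) ∧
      ((q2 P).IsPrime ∧ q2 P ≠ ⊥ ∧ (q2 P).under (𝓞 L) = P ∧ absNorm (q2 P) = absNorm P) ∧
      q2 P ≠ q P) (σ : ℝ) :
    Z L T σ * Z L T σ ≤ Z E ∅ σ := by
  classical
  set un : Ideal (𝓞 E) → Ideal (𝓞 L) := fun x => x.under (𝓞 L) with hun
  -- the properties for good primes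
  have hprime : ∀ I ∈ prTo L T, ∀ P ∈ UniqueFactorizationMonoid.normalizedFactors I,
      P.IsPrime ∧ P ≠ ⊥ ∧ P ∉ T := by
    intro I hI P hP
    have h1 := UniqueFactorizationMonoid.prime_of_normalized_factor P hP
    have h2 := UniqueFactorizationMonoid.dvd_of_mem_normalizedFactors hP
    exact ⟨Ideal.isPrime_of_prime h1, h1.ne_zero, fun h => hI.2 P h h2⟩
  -- the map
  let nf := fun I : Ideal (𝓞 L) => UniqueFactorizationMonoid.normalizedFactors I
  let m : prTo L T × prTo L T → Multiset (Ideal (𝓞 E)) :=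
    fun p => (nf p.1.1).map q + (nf p.2.1).map q2
  have hm : ∀ p, ∀ x ∈ m p, Prime x := by
    intro p x hx
    rcases Multiset.mem_add.1 hx with h | h
    · obtain ⟨P, hP, rfl⟩ := Multiset.mem_map.1 h
      obtain ⟨h1, h2, h3⟩ := hprime _ p.1.2 P hP
      obtain ⟨⟨a1, a2, -⟩, -, -⟩ := hq P h1 h2 h3
      exact Ideal.prime_of_isPrime a2 a1
    · obtain ⟨P, hP, rfl⟩ := Multiset.mem_map.1 h
      obtain ⟨h1, h2, h3⟩ := hprime _ p.2.2 P hP
      obtain ⟨-, ⟨a1, a2, -⟩, -⟩ := hq P h1 h2 h3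
      exact Ideal.prime_of_isPrime a2 a1
  have hm0 : ∀ p, (m p).prod ≠ ⊥ := by
    intro p
    apply Multiset.prod_ne_zero
    intro h0
    exact (hm p _ h0).ne_zero rfl
  let Φ : prTo L T × prTo L T → prTo E ∅ := fun p =>
    ⟨(m p).prod, hm0 p, fun P hP => absurd hP (Set.notMem_empty P)⟩
  have hnorm : ∀ p, zt σ (Φ p).1 = zt σ p.1.1 * zt σ p.2.1 := by
    intro p
    have h1 : absNorm (m p).prod = absNorm p.1.1 * absNorm p.2.1 := by
      show absNorm ((nf p.1.1).map q + (nf p.2.1).map q2).prod = _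
      rw [Multiset.prod_add, map_mul, map_multiset_prod, map_multiset_prod, Multiset.map_map,
        Multiset.map_map]
      congr 1
      · conv_rhs => rw [← Ideal.prod_normalizedFactors_eq_self p.1.2.1, map_multiset_prod]
        congr 1
        apply Multiset.map_congr rfl
        intro P hP
        obtain ⟨h1, h2, h3⟩ := hprime _ p.1.2 P hP
        exact (hq P h1 h2 h3).1.2.2.2
      · conv_rhs => rw [← Ideal.prod_normalizedFactors_eq_self p.2.2.1, map_multiset_prod]
        congr 1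
        apply Multiset.map_congr rfl
        intro P hP
        obtain ⟨h1, h2, h3⟩ := hprime _ p.2.2 P hP
        exact (hq P h1 h2 h3).2.1.2.2.2
    show ENNReal.ofReal ((absNorm (m p).prod : ℝ) ^ (-σ)) = _
    rw [h1, Nat.cast_mul, Real.mul_rpow (Nat.cast_nonneg _) (Nat.cast_nonneg _),
      ENNReal.ofReal_mul (by positivity)]
    rfl
  have hinj : Function.Injective Φ := by
    intro p p' h
    have h1 : (m p).prod = (m p').prod := congrArg Subtype.val h
    have h2 : m p = m p' := by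
      rw [← UniqueFactorizationMonoid.normalizedFactors_prod_of_prime (hm p),
        ← UniqueFactorizationMonoid.normalizedFactors_prod_of_prime (hm p'), h1]
    -- recover the first factor
    have key : ∀ p : prTo L T × prTo L T,
        ((m p).filter (fun x => x = q (un x))).map un = nf p.1.1 ∧
        ((m p).filter (fun x => ¬ x = q (un x))).map un = nf p.2.1 := by
      intro p
      have a1 : ∀ x ∈ (nf p.1.1).map q, x = q (un x) := by
        intro x hx
        obtain ⟨P, hP, rfl⟩ := Multiset.mem_map.1 hx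
        obtain ⟨h1, h2, h3⟩ := hprime _ p.1.2 P hP
        show q P = q ((q P).under (𝓞 L))
        rw [(hq P h1 h2 h3).1.2.2.1]
      have a2 : ∀ x ∈ (nf p.2.1).map q2, ¬ x = q (un x) := by
        intro x hx
        obtain ⟨P, hP, rfl⟩ := Multiset.mem_map.1 hx
        obtain ⟨h1, h2, h3⟩ := hprime _ p.2.2 P hP
        show ¬ q2 P = q ((q2 P).under (𝓞 L))
        rw [(hq P h1 h2 h3).2.1.2.2.1]
        exact (hq P h1 h2 h3).2.2
      constructor
      · show (((nf p.1.1).map q + (nf p.2.1).map q2).filter (fun x => x = q (un x))).map un = _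
        rw [Multiset.filter_add, Multiset.filter_eq_self.2 a1, Multiset.filter_eq_nil.2 a2,
          add_zero, Multiset.map_map]
        conv_rhs => rw [← Multiset.map_id (nf p.1.1)]
        apply Multiset.map_congr rfl
        intro P hP
        obtain ⟨h1, h2, h3⟩ := hprime _ p.1.2 P hP
        exact (hq P h1 h2 h3).1.2.2.1
      · show (((nf p.1.1).map q + (nf p.2.1).map q2).filter
          (fun x => ¬ x = q (un x))).map un = _
        rw [Multiset.filter_add, Multiset.filter_eq_self.2 a2,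
          Multiset.filter_eq_nil.2 (fun x hx => not_not.2 (a1 x hx)),
          zero_add, Multiset.map_map]
        conv_rhs => rw [← Multiset.map_id (nf p.2.1)]
        apply Multiset.map_congr rfl
        intro P hP
        obtain ⟨h1, h2, h3⟩ := hprime _ p.2.2 P hP
        exact (hq P h1 h2 h3).2.1.2.2.1
    obtain ⟨k1, k2⟩ := key p
    obtain ⟨k3, k4⟩ := key p'
    rw [h2] at k1 k2
    have e1 : nf p.1.1 = nf p'.1.1 := k1.symm.trans k3
    have e2 : nf p.2.1 = nf p'.2.1 := k2.symm.trans k4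
    apply Prod.ext
    · apply Subtype.ext
      rw [← Ideal.prod_normalizedFactors_eq_self p.1.2.1,
        ← Ideal.prod_normalizedFactors_eq_self p'.1.2.1]
      exact congrArg Multiset.prod e1
    · apply Subtype.ext
      rw [← Ideal.prod_normalizedFactors_eq_self p.2.2.1,
        ← Ideal.prod_normalizedFactors_eq_self p'.2.2.1]
      exact congrArg Multiset.prod e2
  calc Z L T σ * Z L T σ
      = ∑' p : prTo L T × prTo L T, zt σ p.1.1 * zt σ p.2.1 := by
        rw [ENNReal.tsum_prod (f := fun I J : prTo L T => zt σ I.1 * zt σ J.1)]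
        simp_rw [ENNReal.tsum_mul_left, ENNReal.tsum_mul_right]
        rfl
    _ = ∑' p : prTo L T × prTo L T, zt σ (Φ p).1 := tsum_congr fun p => (hnorm p).symm
    _ ≤ Z E ∅ σ := ENNReal.tsum_comp_le_tsum_of_injective hinj (fun I : prTo E ∅ => zt σ I.1)

/-- there is no finite set `T` such that all primes outside `T` have two primes of the same norm
above them -/
theorem no_two_above (T : Finset (Ideal (𝓞 L))) (hT : ∀ P ∈ T, P ≠ ⊥ ∧ P ≠ ⊤)
    (hq : ∀ P : Ideal (𝓞 L), P.IsPrime → P ≠ ⊥ → P ∉ T → ∃ q q2 : Ideal (𝓞 E),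
      (q.IsPrime ∧ q ≠ ⊥ ∧ q.under (𝓞 L) = P ∧ absNorm q = absNorm P) ∧
      (q2.IsPrime ∧ q2 ≠ ⊥ ∧ q2.under (𝓞 L) = P ∧ absNorm q2 = absNorm P) ∧
      q2 ≠ q) : False := by
  classical
  choose! q q2 hqq using hq
  -- the inequality
  have hineq : ∀ σ : ℝ, 1 < σ → Z L ∅ σ * Z L ∅ σ ≤ 4 ^ T.card * Z E ∅ σ := by
    intro σ hσ
    have h1 := Z_finset L T hT hσ
    have h2 := Z_sq_le (T : Set (Ideal (𝓞 L))) q q2
      (fun P h1 h2 h3 => hqq P h1 h2 (fun h => h3 (Finset.mem_coe.2 h))) σ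
    calc Z L ∅ σ * Z L ∅ σ
        ≤ (2 ^ T.card * Z L (T : Set (Ideal (𝓞 L))) σ) *
          (2 ^ T.card * Z L (T : Set (Ideal (𝓞 L))) σ) := mul_le_mul' h1 h1
      _ = 4 ^ T.card * (Z L (T : Set (Ideal (𝓞 L))) σ *
          Z L (T : Set (Ideal (𝓞 L))) σ) := by
          have : (4 : ℝ≥0∞) ^ T.card = 2 ^ T.card * 2 ^ T.card := by
            rw [← mul_pow]; norm_num
          rw [this]; ring
      _ ≤ 4 ^ T.card * Z E ∅ σ := mul_le_mul_right h2 _
  have hreal : ∀ σ : ℝ, 1 < σ → ((σ - 1) * (Z L ∅ σ).toReal) *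
      ((σ - 1) * (Z L ∅ σ).toReal) ≤
      (σ - 1) * (4 ^ T.card * ((σ - 1) * (Z E ∅ σ).toReal)) := by
    intro σ hσ
    have h1 := ENNReal.toReal_mono (ENNReal.mul_ne_top (by simp) (Z_ne_top E hσ)) (hineq σ hσ)
    rw [ENNReal.toReal_mul, ENNReal.toReal_mul, ENNReal.toReal_pow] at h1
    have h2 : (4 : ℝ≥0∞).toReal = 4 := by norm_num
    rw [h2] at h1
    have h3 : 0 ≤ (σ - 1) * (σ - 1) := mul_self_nonneg _
    calc _ = (σ - 1) * (σ - 1) * ((Z L ∅ σ).toReal * (Z L ∅ σ).toReal) := by ring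
      _ ≤ (σ - 1) * (σ - 1) * (4 ^ T.card * (Z E ∅ σ).toReal) := mul_le_mul_of_nonneg_left h1 h3
      _ = _ := by ring
  have ht1 := (Z_tendsto L).mul (Z_tendsto L)
  have ht2 : Tendsto (fun σ : ℝ => (σ - 1) * (4 ^ T.card * ((σ - 1) * (Z E ∅ σ).toReal))) (𝓝[>] 1)
      (𝓝 (0 * (4 ^ T.card * dedekindZeta_residue E))) := by
    apply Filter.Tendsto.mul
    · have : Tendsto (fun σ : ℝ => σ - 1) (𝓝 1) (𝓝 (1 - 1)) :=
        (continuous_id.sub continuous_const).tendsto 1
      rw [sub_self] at this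
      exact this.mono_left nhdsWithin_le_nhds
    · exact (Z_tendsto E).const_mul _
  have hle := le_of_tendsto_of_tendsto ht1 ht2 (by
    filter_upwards [self_mem_nhdsWithin] with σ hσ
    exact hreal σ hσ)
  rw [zero_mul] at hle
  have hpos := dedekindZeta_residue_pos L
  nlinarith [mul_pos hpos hpos]

end

end Pool.Agent.AbSplit
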